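import Pool.Agent.Helper22.AE.F2
import Pool.Agent.Helper22.AC.Defs
import Pool.Agent.Helper11.AD.A11

/-!
# AD-A13 (MP_fb29e9_nt, all centres): prevalence in `C^k` for every `2 ≤ k ≤ ∞`
-/

open MeasureTheory Real Set Filter Topology unitInterval

set_option autoImplicit false

namespace Pool.Agent.Helper92.AD

open Pool.Agent.Helper22.AE
open Pool.Agent.Helper22.AC (cntc)

/-- `V` is the space of the `2π`-periodic functions of class `C^k`, with its topology -/
structure IsPerI (k : ℕ∞) {V : Type} [TopologicalSpace V] (val : V → ℝ → ℝ) : Prop where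
  smooth : ∀ v, ContDiff ℝ k (val v)
  per : ∀ v, Function.Periodic (val v) (2 * π)
  inj : Function.Injective val
  surj : ∀ f : ℝ → ℝ, ContDiff ℝ k f → Function.Periodic f (2 * π) → ∃ v, val v = f
  top : Topology.IsInducing fun v (j : {j : ℕ // (j : ℕ∞) ≤ k}) => UniformFun.ofFun (iteratedDeriv j.1 (val v))

/-! ### the random series -/

/-- the coefficients -/
private noncomputable def sx (l : ℕ) : ℝ := exp (-(l : ℝ))

private lemma sx_sum (j : ℕ) : Summable fun l : ℕ => (l : ℝ) ^ j * sx l := by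
  have h := Real.summable_pow_mul_exp_neg_nat_mul j one_pos
  refine h.congr fun l => ?_
  unfold sx
  rw [neg_one_mul]

private lemma cos_iter (l j : ℕ) (θ : ℝ) : |iteratedDeriv j (fun θ => cos ((l : ℝ) * θ)) θ| ≤ (l : ℝ) ^ j := by
  rw [iteratedDeriv_comp_const_mul (Real.contDiff_cos.of_le le_top)]
  simp only
  rw [abs_mul, abs_pow, Nat.abs_cast]
  calc (l : ℝ) ^ j * |iteratedDeriv j cos (l * θ)| ≤ (l : ℝ) ^ j * 1 :=
        mul_le_mul_of_nonneg_left (Real.abs_iteratedDeriv_cos_le_one j _) (by positivity)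
    _ = _ := mul_one _

private lemma sin_iter (l j : ℕ) (θ : ℝ) : |iteratedDeriv j (fun θ => sin ((l : ℝ) * θ)) θ| ≤ (l : ℝ) ^ j := by
  rw [iteratedDeriv_comp_const_mul (Real.contDiff_sin.of_le le_top)]
  simp only
  rw [abs_mul, abs_pow, Nat.abs_cast]
  calc (l : ℝ) ^ j * |iteratedDeriv j sin (l * θ)| ≤ (l : ℝ) ^ j * 1 :=
        mul_le_mul_of_nonneg_left (Real.abs_iteratedDeriv_sin_le_one j _) (by positivity)
    _ = _ := mul_one _

private lemma cos_cd (l : ℕ) (n : WithTop ℕ∞) : ContDiff ℝ n fun θ => cos ((l : ℝ) * θ) :=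
  (Real.contDiff_cos.of_le le_top).comp (contDiff_const.mul contDiff_id)

private lemma sin_cd (l : ℕ) (n : WithTop ℕ∞) : ContDiff ℝ n fun θ => sin ((l : ℝ) * θ) :=
  (Real.contDiff_sin.of_le le_top).comp (contDiff_const.mul contDiff_id)

/-- one term -/
private noncomputable def tx (x : ℕ → I × I) (l : ℕ) (θ : ℝ) : ℝ :=
  sx l * (((x l).1 : ℝ) * cos (l * θ) + ((x l).2 : ℝ) * sin (l * θ))

private lemma tx_cd (x : ℕ → I × I) (l : ℕ) (n : WithTop ℕ∞) : ContDiff ℝ n (tx x l) :=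
  contDiff_const.mul ((contDiff_const.mul (cos_cd l n)).add (contDiff_const.mul (sin_cd l n)))

private lemma tx_iter (x : ℕ → I × I) (l j : ℕ) (θ : ℝ) : iteratedDeriv j (tx x l) θ =
    sx l * (((x l).1 : ℝ) * iteratedDeriv j (fun θ => cos ((l : ℝ) * θ)) θ +
      ((x l).2 : ℝ) * iteratedDeriv j (fun θ => sin ((l : ℝ) * θ)) θ) := by
  have e : tx x l = fun θ => sx l * (((x l).1 : ℝ) * cos ((l : ℝ) * θ) + ((x l).2 : ℝ) * sin ((l : ℝ) * θ)) := rfl
  rw [e, iteratedDeriv_const_mul_field, iteratedDeriv_fun_add (contDiff_const.mul (cos_cd l j)).contDiffAt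
    (contDiff_const.mul (sin_cd l j)).contDiffAt, iteratedDeriv_const_mul_field, iteratedDeriv_const_mul_field]

private lemma tx_bound (x : ℕ → I × I) (l j : ℕ) (θ : ℝ) : |iteratedDeriv j (tx x l) θ| ≤ 2 * ((l : ℝ) ^ j * sx l) := by
  rw [tx_iter]
  have hs : 0 ≤ sx l := (exp_pos _).le
  have h1 : |((x l).1 : ℝ)| ≤ 1 := abs_le.2 ⟨by linarith [(x l).1.2.1], (x l).1.2.2⟩
  have h2 : |((x l).2 : ℝ)| ≤ 1 := abs_le.2 ⟨by linarith [(x l).2.2.1], (x l).2.2.2⟩
  have h3 := cos_iter l j θ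
  have h4 := sin_iter l j θ
  have hp : 0 ≤ (l : ℝ) ^ j := by positivity
  rw [abs_mul, abs_of_nonneg hs]
  have h5 : |((x l).1 : ℝ) * iteratedDeriv j (fun θ => cos ((l : ℝ) * θ)) θ +
      ((x l).2 : ℝ) * iteratedDeriv j (fun θ => sin ((l : ℝ) * θ)) θ| ≤ (l : ℝ) ^ j + (l : ℝ) ^ j := by
    refine (abs_add_le _ _).trans (add_le_add ?_ ?_)
    · rw [abs_mul]
      calc _ ≤ 1 * (l : ℝ) ^ j := mul_le_mul h1 h3 (abs_nonneg _) zero_le_one
        _ = _ := one_mul _
    · rw [abs_mul]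
      calc _ ≤ 1 * (l : ℝ) ^ j := mul_le_mul h2 h4 (abs_nonneg _) zero_le_one
        _ = _ := one_mul _
  calc _ ≤ sx l * ((l : ℝ) ^ j + (l : ℝ) ^ j) := mul_le_mul_of_nonneg_left h5 hs
    _ = _ := by ring

private lemma tx_fbound (x : ℕ → I × I) (j l : ℕ) (θ : ℝ) :
    ‖iteratedFDeriv ℝ j (tx x l) θ‖ ≤ 2 * ((l : ℝ) ^ j * sx l) := by
  rw [norm_iteratedFDeriv_eq_norm_iteratedDeriv, Real.norm_eq_abs]
  exact tx_bound x l j θ

/-- the random function -/
private noncomputable def gx (x : ℕ → I × I) (θ : ℝ) : ℝ := ∑' l : ℕ, tx x l θ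

private lemma gx_cd (x : ℕ → I × I) (k : ℕ∞) : ContDiff ℝ k (gx x) :=
  contDiff_tsum (fun l => tx_cd x l k) (fun j _ => (sx_sum j).mul_left 2) (fun j l θ _ => tx_fbound x j l θ)

private lemma gx_per (x : ℕ → I × I) : Function.Periodic (gx x) (2 * π) := by
  intro θ
  unfold gx
  refine tsum_congr fun l => ?_
  have e : (l : ℝ) * (θ + 2 * π) = l * θ + l * (2 * π) := by ring
  unfold tx
  rw [e, Real.cos_add_nat_mul_two_pi, Real.sin_add_nat_mul_two_pi]

private lemma gx_iter (x : ℕ → I × I) (j : ℕ) (θ : ℝ) : iteratedDeriv j (gx x) θ = ∑' l, iteratedDeriv j (tx x l) θ := by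
  have h1 : iteratedFDeriv ℝ j (gx x) θ = ∑' l, iteratedFDeriv ℝ j (tx x l) θ :=
    iteratedFDeriv_tsum_apply (N := ⊤) (fun l => tx_cd x l _) (fun j _ => (sx_sum j).mul_left 2)
      (fun j l θ _ => tx_fbound x j l θ) le_top θ
  have hs : Summable fun l => iteratedFDeriv ℝ j (tx x l) θ :=
    Summable.of_norm_bounded ((sx_sum j).mul_left 2) fun l => tx_fbound x j l θ
  rw [iteratedDeriv_eq_iteratedFDeriv, h1]
  have h2 := (ContinuousMultilinearMap.apply ℝ (fun _ : Fin j => ℝ) ℝ (fun _ => (1 : ℝ))).map_tsum hs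
  exact h2

/-- the derivatives depend continuously on the sample, for uniform convergence -/
private lemma gx_cont (j : ℕ) : Continuous fun x : ℕ → I × I => UniformFun.ofFun (iteratedDeriv j (gx x)) := by
  have c1 : ∀ l : ℕ, Continuous (iteratedDeriv j fun θ => cos ((l : ℝ) * θ)) := fun l =>
    (cos_cd l j).continuous_iteratedDeriv j le_rfl
  have c2 : ∀ l : ℕ, Continuous (iteratedDeriv j fun θ => sin ((l : ℝ) * θ)) := fun l =>
    (sin_cd l j).continuous_iteratedDeriv j le_rfl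
  let E1 : ℕ → BoundedContinuousFunction ℝ ℝ := fun l =>
    BoundedContinuousFunction.ofNormedAddCommGroup _ (c1 l) ((l : ℝ) ^ j) fun t => cos_iter l j t
  let E2 : ℕ → BoundedContinuousFunction ℝ ℝ := fun l =>
    BoundedContinuousFunction.ofNormedAddCommGroup _ (c2 l) ((l : ℝ) ^ j) fun t => sin_iter l j t
  let G : ℕ → (ℕ → I × I) → BoundedContinuousFunction ℝ ℝ := fun l x =>
    sx l • (((x l).1 : ℝ) • E1 l + ((x l).2 : ℝ) • E2 l)
  have hG : ∀ l x t, G l x t = iteratedDeriv j (tx x l) t := by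
    intro l x t
    rw [tx_iter]
    simp only [G, BoundedContinuousFunction.coe_smul, BoundedContinuousFunction.coe_add, Pi.add_apply, smul_eq_mul]
    rfl
  have hGc : ∀ l, Continuous (G l) := by
    intro l
    have a1 : Continuous fun x : ℕ → I × I => ((x l).1 : ℝ) := continuous_subtype_val.comp (continuous_fst.comp (continuous_apply _))
    have a2 : Continuous fun x : ℕ → I × I => ((x l).2 : ℝ) := continuous_subtype_val.comp (continuous_snd.comp (continuous_apply _))
    exact ((a1.smul continuous_const).add (a2.smul continuous_const)).const_smul (sx l)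
  have hs0 : ∀ l, 0 ≤ sx l := fun l => (exp_pos _).le
  have hGn : ∀ l x, ‖G l x‖ ≤ 2 * ((l : ℝ) ^ j * sx l) := by
    intro l x
    have := hs0 l
    rw [BoundedContinuousFunction.norm_le (by positivity)]
    intro t
    rw [hG, Real.norm_eq_abs]
    exact tx_bound x l j t
  have hsum : Summable fun l : ℕ => 2 * ((l : ℝ) ^ j * sx l) := (sx_sum j).mul_left 2
  have hF : Continuous fun x => ∑' l, G l x := continuous_tsum hGc hsum hGn
  have hval : ∀ x t, (∑' l, G l x) t = iteratedDeriv j (gx x) t := by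
    intro x t
    have hs : Summable fun l => G l x := Summable.of_norm_bounded hsum fun l => hGn l x
    have h1 := (BoundedContinuousFunction.evalCLM ℝ t).map_tsum hs
    rw [gx_iter]
    refine h1.trans (tsum_congr fun l => hG l x t)
  have h2 := BoundedContinuousFunction.isInducing_coeFn.continuous.comp hF
  refine h2.congr fun x => ?_
  show UniformFun.ofFun (⇑(∑' l, G l x)) = UniformFun.ofFun (iteratedDeriv j (gx x))
  congr 1
  funext t
  exact hval x t

/-! ### measurability -/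

section

variable {k : ℕ∞} {V : Type} [TopologicalSpace V] {val : V → ℝ → ℝ}

private lemma ct_unif (h : IsPerI k val) {j : ℕ} (hj : (j : ℕ∞) ≤ k) :
    Continuous fun f : V => UniformFun.ofFun (iteratedDeriv j (val f)) :=
  (continuous_apply (⟨j, hj⟩ : {j : ℕ // (j : ℕ∞) ≤ k})).comp h.top.continuous

private lemma ct_eval (h : IsPerI k val) {j : ℕ} (hj : (j : ℕ∞) ≤ k) (t : ℝ) : Continuous fun f : V => iteratedDeriv j (val f) t :=
  (UniformFun.uniformContinuous_eval ℝ t).continuous.comp (ct_unif h hj)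

private lemma ct_val (h : IsPerI k val) (t : ℝ) : Continuous fun f : V => val f t := by
  have h1 := ct_eval h (j := 0) (by simp) t
  simpa only [iteratedDeriv_zero] using h1

private lemma two92 (f : ℝ → ℝ) : iteratedDeriv 2 f = deriv (deriv f) := by
  rw [iteratedDeriv_succ, iteratedDeriv_one]

private lemma cd2 (h : IsPerI k val) (hk : 2 ≤ k) (v : V) : ContDiff ℝ 2 (val v) :=
  (h.smooth v).of_le (show ((2 : ℕ∞) : WithTop ℕ∞) ≤ (k : WithTop ℕ∞) from WithTop.coe_le_coe.2 hk)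

private lemma rho_ct (h : IsPerI k val) (hk : 2 ≤ k) (t : ℝ) : Continuous fun f : V => val f t + deriv (deriv (val f)) t := by
  have h1 := ct_eval h (j := 2) (by exact_mod_cast hk) t
  simp only [two92] at h1
  exact (ct_val h t).add h1

private lemma t2_92 (h : IsPerI k val) : T2Space V := by
  refine T2Space.of_injective_continuous (f := fun f : V => UniformFun.ofFun (iteratedDeriv 0 (val f))) ?_ (ct_unif h (by simp))
  intro f g hfg
  have h1 : iteratedDeriv 0 (val f) = iteratedDeriv 0 (val g) := hfg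
  rw [iteratedDeriv_zero, iteratedDeriv_zero] at h1
  exact h.inj h1

/-- the radius of curvature attains its minimum -/
private lemma rho_min (h : IsPerI k val) (hk : 2 ≤ k) (H : V) (hH : ∀ t, 0 < val H t + deriv (deriv (val H)) t) :
    ∃ n : ℕ, ∀ t, 1 / ((n : ℝ) + 1) ≤ val H t + deriv (deriv (val H)) t := by
  have h2 := cd2 h hk H
  have hc : Continuous fun t => val H t + deriv (deriv (val H)) t := by
    rw [← two92]
    exact h2.continuous.add (h2.continuous_iteratedDeriv 2 le_rfl)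
  have hp : Function.Periodic (fun t => val H t + deriv (deriv (val H)) t) (2 * π) := by
    intro t
    have e1 : Function.Periodic (deriv (val H)) (2 * π) := by
      intro s
      have h3 : (fun x => val H (x + 2 * π)) = val H := funext (h.per H)
      calc deriv (val H) (s + 2 * π) = deriv (fun x => val H (x + 2 * π)) s := (deriv_comp_add_const _ _ _).symm
        _ = _ := by rw [h3]
    have e2 : deriv (deriv (val H)) (t + 2 * π) = deriv (deriv (val H)) t := by
      have h3 : (fun x => deriv (val H) (x + 2 * π)) = deriv (val H) := funext e1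
      calc deriv (deriv (val H)) (t + 2 * π) = deriv (fun x => deriv (val H) (x + 2 * π)) t := (deriv_comp_add_const _ _ _).symm
        _ = _ := by rw [h3]
    simp only [h.per H t, e2]
  have hK : IsCompact (Icc (0 : ℝ) (2 * π)) := isCompact_Icc
  obtain ⟨x, _, hx⟩ := hK.exists_isMinOn ⟨0, by constructor <;> positivity⟩ hc.continuousOn
  obtain ⟨n, hn⟩ := exists_nat_one_div_lt (hH x)
  refine ⟨n, fun t => ?_⟩
  obtain ⟨s, hs, he⟩ := hp.exists_mem_Ico₀ (by positivity) t
  rw [he]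
  exact hn.le.trans (hx ⟨hs.1, hs.2.le⟩)

variable [MeasurableSpace V] [BorelSpace V]

private lemma pos_meas (h : IsPerI k val) (hk : 2 ≤ k) : MeasurableSet {H : V | ∀ t, 0 < val H t + deriv (deriv (val H)) t} := by
  have e : {H : V | ∀ t, 0 < val H t + deriv (deriv (val H)) t} =
      ⋃ n : ℕ, ⋂ t : ℝ, {H : V | 1 / ((n : ℝ) + 1) ≤ val H t + deriv (deriv (val H)) t} := by
    ext H
    simp only [mem_ofPred_eq, mem_iUnion, mem_iInter]
    constructor
    · exact fun hH => rho_min h hk H hH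
    · rintro ⟨n, hn⟩ t
      exact lt_of_lt_of_le (by positivity) (hn t)
  rw [e]
  refine MeasurableSet.iUnion fun n => (isClosed_iInter fun t => ?_).measurableSet
  exact isClosed_le continuous_const (rho_ct h hk t)

omit [MeasurableSpace V] [BorelSpace V] in
private lemma bdd92 (h : IsPerI k val) (H : V) : ∃ C : ℝ, ∀ t, |val H t| ≤ C := by
  obtain ⟨C, hC⟩ := (isCompact_Icc : IsCompact (Icc (0 : ℝ) (2 * π))).exists_bound_of_continuousOn
    (h.smooth H).continuous.continuousOn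
  refine ⟨C, fun t => ?_⟩
  obtain ⟨y, hy, hy'⟩ := (h.per H).exists_mem_Ico₀ (by positivity) t
  rw [hy']
  exact hC y ⟨hy.1, hy.2.le⟩

private lemma box92 {G : ℝ → ℝ} {N : ℕ} (hG : ∀ θ, |G θ| ≤ N) {k : ℤ × ℤ}
    (hk : ∀ θ : ℝ, (k.1 : ℝ) * cos θ + (k.2 : ℝ) * sin θ ≤ G θ) : k ∈ box N := by
  have a1 := (hk 0).trans ((le_abs_self _).trans (hG 0))
  have a2 := (hk π).trans ((le_abs_self _).trans (hG π))
  have a3 := (hk (π / 2)).trans ((le_abs_self _).trans (hG (π / 2)))
  have a4 := (hk (-(π / 2))).trans ((le_abs_self _).trans (hG (-(π / 2))))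
  simp only [cos_zero, sin_zero, mul_one, mul_zero, add_zero, zero_add, cos_pi, sin_pi, cos_pi_div_two,
    sin_pi_div_two, cos_neg, sin_neg, mul_neg] at a1 a2 a3 a4
  simp only [box, Finset.mem_product, Finset.mem_Icc]
  refine ⟨⟨?_, ?_⟩, ?_, ?_⟩
  · have : -(N : ℝ) ≤ (k.1 : ℝ) := by linarith
    exact_mod_cast this
  · exact_mod_cast a1
  · have : -(N : ℝ) ≤ (k.2 : ℝ) := by linarith
    exact_mod_cast this
  · exact_mod_cast a3

open Classical in
/-- the count inside a box -/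
private noncomputable def cb (val : V → ℝ → ℝ) (c : ℝ × ℝ) (R : ℝ) (N : ℕ) (H : V) : ℝ :=
  ∑ k ∈ box N, (if (∀ θ : ℝ, ((k.1 : ℝ) - c.1) * cos θ + ((k.2 : ℝ) - c.2) * sin θ ≤ R * val H θ) then (1 : ℝ) else 0)

private lemma cb_meas (h : IsPerI k val) (c : ℝ × ℝ) (R : ℝ) (N : ℕ) : Measurable (cb val c R N) := by
  classical
  unfold cb
  refine Finset.measurable_sum _ fun k _ => ?_
  refine Measurable.ite ?_ measurable_const measurable_const
  have hc : {H : V | ∀ θ : ℝ, ((k.1 : ℝ) - c.1) * cos θ + ((k.2 : ℝ) - c.2) * sin θ ≤ R * val H θ} =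
      ⋂ θ : ℝ, {H : V | ((k.1 : ℝ) - c.1) * cos θ + ((k.2 : ℝ) - c.2) * sin θ ≤ R * val H θ} := by
    ext x
    simp
  rw [hc]
  exact (isClosed_iInter fun θ => isClosed_le continuous_const (continuous_const.mul (ct_val h θ))).measurableSet

omit [MeasurableSpace V] [BorelSpace V] in
private lemma cb_eq (h : IsPerI k val) (c : ℝ × ℝ) (R : ℝ) (H : V) : ∃ N₀ : ℕ, ∀ N, N₀ ≤ N → cb val c R N H = cntc (val H) c R := by
  classical
  obtain ⟨C, hC⟩ := bdd92 h H
  obtain ⟨N₀, hN₀⟩ := exists_nat_ge (|R| * C + (|c.1| + |c.2|))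
  refine ⟨N₀, fun N hN => ?_⟩
  have hNr : (N₀ : ℝ) ≤ N := by exact_mod_cast hN
  have hb : ∀ θ, |R * val H θ + (c.1 * cos θ + c.2 * sin θ)| ≤ N := by
    intro θ
    have h1 : |R * val H θ| ≤ |R| * C := by
      rw [abs_mul]
      exact mul_le_mul_of_nonneg_left (hC θ) (abs_nonneg _)
    have h2 : |c.1 * cos θ| ≤ |c.1| := by
      rw [abs_mul]
      exact mul_le_of_le_one_right (abs_nonneg _) (abs_cos_le_one θ)
    have h3 : |c.2 * sin θ| ≤ |c.2| := by
      rw [abs_mul]
      exact mul_le_of_le_one_right (abs_nonneg _) (abs_sin_le_one θ)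
    have h4 := abs_add_le (R * val H θ) (c.1 * cos θ + c.2 * sin θ)
    have h5 := abs_add_le (c.1 * cos θ) (c.2 * sin θ)
    linarith
  unfold cb cntc
  rw [Nat.subtype_card ((box N).filter fun k : ℤ × ℤ =>
    ∀ θ : ℝ, ((k.1 : ℝ) - c.1) * cos θ + ((k.2 : ℝ) - c.2) * sin θ ≤ R * val H θ)]
  · rw [Finset.sum_boole]
  · intro k
    rw [Finset.mem_filter]
    refine ⟨fun h => h.2, fun hk => ⟨box92 (G := fun θ => R * val H θ + (c.1 * cos θ + c.2 * sin θ)) hb fun θ => ?_, hk⟩⟩
    have := hk θ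
    linarith

private lemma cntc_meas92 (h : IsPerI k val) (c : ℝ × ℝ) (R : ℝ) : Measurable (fun H : V => cntc (val H) c R) := by
  refine measurable_of_tendsto_metrizable (f := fun N H => cb val c R N H) (fun N => cb_meas h c R N) ?_
  rw [tendsto_pi_nhds]
  intro H
  obtain ⟨N₀, hN₀⟩ := cb_eq h c R H
  exact tendsto_const_nhds.congr' (eventually_atTop.2 ⟨N₀, fun N hN => (hN₀ N hN).symm⟩)

private lemma area_meas92 (h : IsPerI k val) : Measurable (fun H : V => area (val H)) := by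
  have hD : MeasurableSet {q : V × (ℝ × ℝ) | ∀ θ : ℝ, q.2.1 * cos θ + q.2.2 * sin θ ≤ val q.1 θ} := by
    have hc : {q : V × (ℝ × ℝ) | ∀ θ : ℝ, q.2.1 * cos θ + q.2.2 * sin θ ≤ val q.1 θ} =
        ⋂ θ : ℚ, {q : V × (ℝ × ℝ) | q.2.1 * cos (θ : ℝ) + q.2.2 * sin (θ : ℝ) ≤ val q.1 (θ : ℝ)} := by
      ext q
      simp only [mem_ofPred_eq, mem_iInter]
      constructor
      · exact fun hq θ => hq θ
      · intro hq θ
        have hcl : IsClosed {θ : ℝ | q.2.1 * cos θ + q.2.2 * sin θ ≤ val q.1 θ} :=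
          isClosed_le (by fun_prop) (h.smooth q.1).continuous
        exact isClosed_property Rat.denseRange_cast hcl hq θ
    rw [hc]
    refine MeasurableSet.iInter fun θ => measurableSet_le ?_ ?_
    · fun_prop
    · exact (ct_val h (θ : ℝ)).measurable.comp measurable_fst
  have h1 := measurable_measure_prodMk_left (ν := (volume : Measure (ℝ × ℝ))) hD
  exact h1.ennreal_toReal

/-- the bound for rational radii and centres -/
private def Qr (H : ℝ → ℝ) (e : ℝ) : Prop :=
  ∃ C : ℕ, ∀ R : ℚ, 1 ≤ R → ∀ c : ℚ × ℚ, |cntc H ((c.1 : ℝ), (c.2 : ℝ)) (R : ℝ) - area H * (R : ℝ) ^ 2| ≤ C * (R : ℝ) ^ e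

private lemma Qr_meas (h : IsPerI k val) (e : ℝ) : MeasurableSet {H : V | Qr (val H) e} := by
  have hset : {H : V | Qr (val H) e} = ⋃ C : ℕ, ⋂ R : ℚ, ⋂ _ : 1 ≤ R, ⋂ c : ℚ × ℚ, {H : V |
        |cntc (val H) ((c.1 : ℝ), (c.2 : ℝ)) (R : ℝ) - area (val H) * (R : ℝ) ^ 2| ≤ C * (R : ℝ) ^ e} := by
    ext x
    simp only [Qr, mem_ofPred_eq, mem_iUnion, mem_iInter]
  rw [hset]
  refine MeasurableSet.iUnion fun C => MeasurableSet.iInter fun R => MeasurableSet.iInter fun _ =>
    MeasurableSet.iInter fun c => measurableSet_le ?_ measurable_const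
  exact continuous_abs.measurable.comp ((cntc_meas92 h _ _).sub ((area_meas92 h).mul_const _))

/-- the exponents `1/2 + 1/(n+1)` -/
private noncomputable def en (n : ℕ) : ℝ := 1 / 2 + 1 / ((n : ℝ) + 1)

private lemma en_nonneg (n : ℕ) : 0 ≤ en n := by
  unfold en
  positivity

/-- the Borel set of the exceptions -/
private def Bx (val : V → ℝ → ℝ) : Set V := {H | (∀ t, 0 < val H t + deriv (deriv (val H)) t) ∧ ∃ n : ℕ, ¬ Qr (val H) (en n)}

private lemma Bx_meas (h : IsPerI k val) (hk : 2 ≤ k) : MeasurableSet (Bx val) := by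
  have e : Bx val = {H : V | ∀ t, 0 < val H t + deriv (deriv (val H)) t} ∩ ⋃ n : ℕ, {H : V | Qr (val H) (en n)}ᶜ := by
    ext H
    simp only [Bx, mem_ofPred_eq, mem_inter_iff, mem_iUnion, mem_compl_iff]
  rw [e]
  exact (pos_meas h hk).inter (MeasurableSet.iUnion fun n => (Qr_meas h _).compl)

/-- the bound for the exponent `e` -/
private def Pr (H : ℝ → ℝ) (e : ℝ) : Prop :=
  ∃ C : ℝ, ∀ R : ℝ, 1 ≤ R → ∀ c : ℝ × ℝ, |cntc H c R - area H * R ^ 2| ≤ C * R ^ e

private lemma Pr_mono {H : ℝ → ℝ} {e e' : ℝ} (he : e ≤ e') (hP : Pr H e) : Pr H e' := by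
  obtain ⟨C, hC⟩ := hP
  refine ⟨|C|, fun R hR c => (hC R hR c).trans ?_⟩
  have h1 : 0 ≤ R ^ e := Real.rpow_nonneg (by linarith) _
  calc C * R ^ e ≤ |C| * R ^ e := mul_le_mul_of_nonneg_right (le_abs_self _) h1
    _ ≤ |C| * R ^ e' := mul_le_mul_of_nonneg_left (Real.rpow_le_rpow_of_exponent_le hR he) (abs_nonneg _)

omit [MeasurableSpace V] [BorelSpace V] in
private lemma mem_Bx (h : IsPerI k val) (hk : 2 ≤ k) {H : V}
    (hH : ¬ ((∀ t, 0 < val H t + deriv (deriv (val H)) t) → ∀ ε : ℝ, 0 < ε → Pr (val H) (1 / 2 + ε))) : H ∈ Bx val := by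
  push Not at hH
  obtain ⟨hpos, ε, hε, hP⟩ := hH
  obtain ⟨n, hn⟩ := exists_nat_one_div_lt hε
  refine ⟨hpos, n, fun hQ => hP ?_⟩
  have h1 : Pr (val H) (en n) := (Pool.Agent.Helper11.AD.rat_red (cd2 h hk H) (h.per H) hpos (en n) (en_nonneg n)).2 hQ
  refine Pr_mono ?_ h1
  unfold en
  linarith

omit [MeasurableSpace V] [BorelSpace V] in
private lemma not_Bx (h : IsPerI k val) (hk : 2 ≤ k) {H : V}
    (hH : (∀ t, 0 < val H t + deriv (deriv (val H)) t) → ∀ ε : ℝ, 0 < ε → Pr (val H) (1 / 2 + ε)) : H ∉ Bx val := by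
  rintro ⟨hpos, n, hn⟩
  apply hn
  have h1 : Pr (val H) (en n) := hH hpos (1 / ((n : ℝ) + 1)) (by positivity)
  exact (Pool.Agent.Helper11.AD.rat_red (cd2 h hk H) (h.per H) hpos (en n) (en_nonneg n)).1 h1

end

theorem prev_all
    (ser : ∀ {H₀ : ℝ → ℝ}, ContDiff ℝ 2 H₀ → Function.Periodic H₀ (2 * π) → ∀ {s : ℕ → ℝ},
      Summable (fun l : ℕ => (l : ℝ) ^ 2 * |s l|) →
      ∀ᵐ x ∂(Measure.infinitePi fun _ : ℕ => (volume : Measure (I × I))),
      (∀ θ, 0 < Hx H₀ s x θ + deriv (deriv (Hx H₀ s x)) θ) →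
      ∀ ε : ℝ, 0 < ε → (∀ l : ℕ, (l : ℝ) < 2 / ε + 10 → s l ≠ 0) → ∃ C : ℝ, ∀ R : ℝ, 1 ≤ R → ∀ c : ℝ × ℝ,
        |cntc (Hx H₀ s x) c R - area (Hx H₀ s x) * R ^ 2| ≤ C * R ^ (1 / 2 + ε))
    {k : ℕ∞} (hk : 2 ≤ k) {V : Type} [TopologicalSpace V] [MeasurableSpace V] [BorelSpace V] {val : V → ℝ → ℝ}
    (h : IsPerI k val) :
    ∃ B : Set V, (∀ H, ¬ ((∀ t, 0 < val H t + deriv (deriv (val H)) t) → ∀ ε : ℝ, 0 < ε → ∃ C : ℝ, ∀ R : ℝ, 1 ≤ R →
        ∀ c : ℝ × ℝ, |cntc (val H) c R - area (val H) * R ^ 2| ≤ C * R ^ (1 / 2 + ε)) → H ∈ B) ∧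
      MeasurableSet B ∧ ∃ μ : Measure V, IsProbabilityMeasure μ ∧ (∃ K : Set V, IsCompact K ∧ μ Kᶜ = 0) ∧
        ∀ v : V, μ {w | ∃ u ∈ B, ∀ t, val u t = val w t + val v t} = 0 := by
  have ht2 : T2Space V := t2_92 h
  -- the random function as an element of `V`
  have hW : ∀ x : ℕ → I × I, ∃ v : V, val v = gx x := fun x => h.surj (gx x) (gx_cd x k) (gx_per x)
  choose RW hRW using hW
  have hRc : Continuous RW := by
    rw [h.top.continuous_iff, continuous_pi_iff]
    intro j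
    refine (gx_cont j.1).congr fun x => ?_
    show _ = UniformFun.ofFun (iteratedDeriv j.1 (val (RW x)))
    rw [hRW]
  -- the sum of two functions
  have hA : ∀ w v : V, ∃ u : V, val u = fun t => val w t + val v t := fun w v =>
    h.surj _ ((h.smooth w).add (h.smooth v)) fun t => congrArg₂ (· + ·) (h.per w t) (h.per v t)
  choose ad had using hA
  have hAc : ∀ v : V, Continuous fun w : V => ad w v := by
    intro v
    rw [h.top.continuous_iff, continuous_pi_iff]
    intro j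
    have h1 : Continuous fun w : V => UniformFun.ofFun (iteratedDeriv j.1 (val w)) + UniformFun.ofFun (iteratedDeriv j.1 (val v)) :=
      (ct_unif h j.2).add continuous_const
    refine h1.congr fun w => ?_
    show _ = UniformFun.ofFun (iteratedDeriv j.1 (val (ad w v)))
    rw [← UniformFun.ofFun_add, had]
    congr 1
    funext t
    have hj2 : ((j.1 : ℕ) : WithTop ℕ∞) ≤ (k : WithTop ℕ∞) := by exact_mod_cast j.2
    exact (iteratedDeriv_fun_add ((h.smooth w).of_le hj2).contDiffAt ((h.smooth v).of_le hj2).contDiffAt).symm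
  have hset : ∀ v : V, {w : V | ∃ u ∈ Bx val, ∀ t, val u t = val w t + val v t} = {w | ad w v ∈ Bx val} := by
    intro v
    ext w
    constructor
    · rintro ⟨u, hu, hh⟩
      have e : u = ad w v := h.inj (by rw [had]; exact funext hh)
      rw [e] at hu
      exact hu
    · intro hh
      exact ⟨_, hh, fun t => by rw [had]⟩
  have hBm : MeasurableSet (Bx val) := Bx_meas h hk
  refine ⟨Bx val, fun H hH => mem_Bx h hk hH, hBm, Measure.map RW (Measure.infinitePi fun _ : ℕ => (volume : Measure (I × I))),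
    Measure.isProbabilityMeasure_map hRc.measurable.aemeasurable, ?_, ?_⟩
  · have hcp : IsCompact (range RW) := isCompact_range hRc
    refine ⟨range RW, hcp, ?_⟩
    rw [Measure.map_apply hRc.measurable hcp.isClosed.measurableSet.compl]
    have : RW ⁻¹' (range RW)ᶜ = ∅ := by
      ext ω
      simp
    rw [this, measure_empty]
  · intro v
    rw [hset]
    have hm : MeasurableSet {w : V | ad w v ∈ Bx val} := (hAc v).measurable hBm
    rw [Measure.map_apply hRc.measurable hm, ← compl_compl (RW ⁻¹' {w | ad w v ∈ Bx val}), ← mem_ae_iff]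
    have hs : Summable (fun l : ℕ => (l : ℝ) ^ 2 * |sx l|) := by
      refine (sx_sum 2).congr fun l => ?_
      rw [abs_of_pos (show 0 < sx l from exp_pos _)]
    filter_upwards [ser (cd2 h hk v) (h.per v) hs] with x hx
    have e : Hx (val v) sx x = val (ad (RW x) v) := by
      rw [had, hRW]
      funext t
      show val v t + ∑' l : ℕ, sx l * (((x l).1 : ℝ) * cos (l * t) + ((x l).2 : ℝ) * sin (l * t)) = gx x t + val v t
      rw [add_comm]
      rfl
    rw [e] at hx
    exact not_Bx h hk fun hpos ε hε => hx hpos ε hε fun l _ => (exp_pos _).ne'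

end Pool.Agent.Helper92.AD
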